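import Pool.Agent.helper23.F2.Spec

set_option autoImplicit false

namespace Pool.Agent.F2

open Pool.Agent.helper23.TH

open Classical

section
variable {V L : Type} {b s : ℕ} (G : LG V L b s)

/-- labels of all objects of a walk -/
noncomputable def CL4.labs {l : ℕ} (P : Fin (l + 1) → V) : Finset L :=
  Finset.univ.biUnion fun o : Ob l => G.obj P o

theorem CL4.labs_card {l : ℕ} (P : Fin (l + 1) → V) : (CL4.labs G P).card ≤ b * (2 * l + 1) := by
  unfold CL4.labs
  refine Finset.card_biUnion_le.trans ?_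
  have h1 : ∀ o ∈ (Finset.univ : Finset (Ob l)), (G.obj P o).card ≤ b := by
    intro o _
    rcases o with i | j
    · exact G.bv _
    · exact G.be _ _
  refine (Finset.sum_le_card_nsmul _ _ _ h1).trans ?_
  rw [Finset.card_univ, smul_eq_mul]
  have : Fintype.card (Ob l) = 2 * l + 1 := by
    simp [Ob]
    omega
  rw [this, mul_comm]

/-- continuations of a walk -/
noncomputable def CL4.good [Fintype V] {l : ℕ} (P : Fin (l + 1) → V) : Finset V :=
  Finset.univ.filter fun w => G.A (P (Fin.last l)) w ∧ Disjoint (G.lv w) (CL4.labs G P) ∧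
    Disjoint (G.le (P (Fin.last l)) w) (CL4.labs G P)

theorem CL4.good_card [Fintype V] {l : ℕ} (P : Fin (l + 1) → V) :
    dg G.A Finset.univ (P (Fin.last l)) ≤ (CL4.good G P).card + b * (2 * l + 1) * s := by
  have h1 : (Finset.univ.filter fun w => G.A (P (Fin.last l)) w) ⊆ CL4.good G P ∪
      (CL4.labs G P).biUnion fun x => Finset.univ.filter fun w =>
        G.A (P (Fin.last l)) w ∧ (x ∈ G.lv w ∨ x ∈ G.le (P (Fin.last l)) w) := by
    intro w hw
    simp only [Finset.mem_filter, Finset.mem_univ, true_and] at hw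
    rw [Finset.mem_union]
    by_cases h : w ∈ CL4.good G P
    · exact Or.inl h
    · right
      rw [Finset.mem_biUnion]
      have h2 : ¬ (Disjoint (G.lv w) (CL4.labs G P) ∧ Disjoint (G.le (P (Fin.last l)) w) (CL4.labs G P)) := by
        intro h3
        apply h
        unfold CL4.good
        simp only [Finset.mem_filter, Finset.mem_univ, true_and]
        exact ⟨hw, h3⟩
      rw [not_and_or, Finset.not_disjoint_iff, Finset.not_disjoint_iff] at h2
      rcases h2 with ⟨x, h3, h4⟩ | ⟨x, h3, h4⟩
      · exact ⟨x, h4, by simp only [Finset.mem_filter, Finset.mem_univ, true_and]; exact ⟨hw, Or.inl h3⟩⟩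
      · exact ⟨x, h4, by simp only [Finset.mem_filter, Finset.mem_univ, true_and]; exact ⟨hw, Or.inr h3⟩⟩
  unfold dg
  refine (Finset.card_le_card h1).trans ((Finset.card_union_le _ _).trans ?_)
  refine Nat.add_le_add_left ?_ _
  refine Finset.card_biUnion_le.trans ?_
  have h2 : ∀ x ∈ CL4.labs G P, (Finset.univ.filter fun w =>
        G.A (P (Fin.last l)) w ∧ (x ∈ G.lv w ∨ x ∈ G.le (P (Fin.last l)) w)).card ≤ s := by
    intro x _
    apply G.sp (P (Fin.last l)) x
    intro w hw
    simp only [Finset.mem_filter, Finset.mem_univ, true_and] at hw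
    exact hw
  refine (Finset.sum_le_card_nsmul _ _ _ h2).trans ?_
  rw [smul_eq_mul]
  exact Nat.mul_le_mul_right _ (CL4.labs_card G P)

theorem CL4.mem_labs {l : ℕ} (P : Fin (l + 1) → V) (o : Ob l) (z : L) (hz : z ∈ G.obj P o) :
    z ∈ CL4.labs G P := by
  unfold CL4.labs
  rw [Finset.mem_biUnion]
  exact ⟨o, Finset.mem_univ _, hz⟩

/-- objects of the longer walk -/
theorem CL4.obj_cases {l : ℕ} (P : Fin (l + 1) → V) (w : V) (o : Ob (l + 1)) :
    (∃ o' : Ob l, G.obj (Fin.snoc P w : Fin (l + 2) → V) o = G.obj P o' ∧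
      ((∃ i, o' = .inl i ∧ o = .inl i.castSucc) ∨ ∃ j, o' = .inr j ∧ o = .inr j.castSucc)) ∨
    (o = .inl (Fin.last (l + 1)) ∧ G.obj (Fin.snoc P w : Fin (l + 2) → V) o = G.lv w) ∨
    (o = .inr (Fin.last l) ∧ G.obj (Fin.snoc P w : Fin (l + 2) → V) o = G.le (P (Fin.last l)) w) := by
  rcases o with i | j
  · induction i using Fin.lastCases with
    | last =>
      right; left
      refine ⟨rfl, ?_⟩
      simp [LG.obj]
    | cast i =>
      left
      refine ⟨.inl i, ?_, Or.inl ⟨i, rfl, rfl⟩⟩
      simp [LG.obj]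
  · induction j using Fin.lastCases with
    | last =>
      right; right
      refine ⟨rfl, ?_⟩
      simp [LG.obj]
    | cast j =>
      left
      refine ⟨.inr j, ?_, Or.inr ⟨j, rfl, rfl⟩⟩
      simp only [LG.obj]
      rw [Fin.snoc_castSucc, Fin.succ_castSucc, Fin.snoc_castSucc]

theorem CL4.ext [Fintype V] (hT : G.Tdy) {l : ℕ} (P : Fin (l + 1) → V) (hW : Wk G.A l P) (hC : G.Cln P) (w : V)
    (hw : w ∈ CL4.good G P) :
    Wk G.A (l + 1) (Fin.snoc P w : Fin (l + 2) → V) ∧ G.Cln (Fin.snoc P w : Fin (l + 2) → V) := by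
  unfold CL4.good at hw
  simp only [Finset.mem_filter, Finset.mem_univ, true_and] at hw
  obtain ⟨h1, h2, h3⟩ := hw
  constructor
  · intro i
    induction i using Fin.lastCases with
    | last => simpa using h1
    | cast i =>
      rw [Fin.snoc_castSucc, Fin.succ_castSucc, Fin.snoc_castSucc]
      exact hW i
  · intro o o' hoo
    have hin : ∀ o' : Ob l, G.obj P o' ⊆ CL4.labs G P := fun o' z hz => CL4.mem_labs G P o' z hz
    rcases CL4.obj_cases G P w o with ⟨p, hp, hp'⟩ | ⟨hp, hp'⟩ | ⟨hp, hp'⟩ <;>
    rcases CL4.obj_cases G P w o' with ⟨q, hq, hq'⟩ | ⟨hq, hq'⟩ | ⟨hq, hq'⟩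
    · rw [hp, hq]
      apply hC
      rintro rfl
      apply hoo
      rcases hp' with ⟨i, h4, h5⟩ | ⟨i, h4, h5⟩ <;> rcases hq' with ⟨j, h6, h7⟩ | ⟨j, h6, h7⟩
      · rw [h4] at h6
        rw [h5, h7, Sum.inl_injective h6]
      · rw [h4] at h6
        exact absurd h6 (by simp)
      · rw [h4] at h6
        exact absurd h6 (by simp)
      · rw [h4] at h6
        rw [h5, h7, Sum.inr_injective h6]
    · rw [hp, hq']
      exact (h2.mono_right (hin p)).symm
    · rw [hp, hq']
      exact (h3.mono_right (hin p)).symm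
    · rw [hp', hq]
      exact h2.mono_right (hin q)
    · exact absurd (hp.trans hq.symm) hoo
    · rw [hp', hq']
      exact (hT _ _ h1).symm
    · rw [hp', hq]
      exact h3.mono_right (hin q)
    · rw [hp', hq']
      exact hT _ _ h1
    · exact absurd (hp.trans hq.symm) hoo

end

theorem CL4 : CL4_stmt := by
  intro V L _ b s G l D hT hD hbD
  induction l with
  | zero =>
    have h1 : ((Finset.univ : Finset (Fin (0 + 1) → V)).filter fun P => Wk G.A 0 P ∧ G.Cln P) = Finset.univ := by
      apply Finset.filter_true_of_mem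
      intro P _
      refine ⟨fun i => i.elim0, ?_⟩
      intro o o' hoo
      exfalso
      apply hoo
      rcases o with i | j
      · rcases o' with i' | j'
        · have : i = i' := Fin.ext (by omega)
          rw [this]
        · exact j'.elim0
      · exact j.elim0
    rw [h1]
    simp
  | succ l ih =>
    have hb2 : 2 * ((b : ℝ) * (2 * l + 1) * s) ≤ D := by
      refine le_trans ?_ hbD
      push_cast
      have : (0 : ℝ) ≤ (b : ℝ) * s := by positivity
      nlinarith
    have ih' := ih hb2
    have hD0 : 0 ≤ D := le_trans (by positivity) hb2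
    set T := ((Finset.univ : Finset (Fin (l + 1) → V)).filter fun P => Wk G.A l P ∧ G.Cln P) with hTdef
    -- the pairs
    have h2 : (T.sigma fun P => CL4.good G P).card ≤
        ((Finset.univ : Finset (Fin (l + 1 + 1) → V)).filter fun P => Wk G.A (l + 1) P ∧ G.Cln P).card := by
      apply Finset.card_le_card_of_injOn (fun p => (Fin.snoc p.1 p.2 : Fin (l + 2) → V))
      · rintro ⟨P, w⟩ hp
        simp only [Finset.coe_sigma, Set.mem_sigma_iff, Finset.mem_coe] at hp
        simp only [hTdef, Finset.mem_filter, Finset.mem_univ, true_and] at hp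
        simp only [Finset.coe_filter, Finset.mem_univ, true_and]
        exact CL4.ext G hT P hp.1.1 hp.1.2 w hp.2
      · rintro ⟨P, w⟩ _ ⟨P', w'⟩ _ h
        simp only at h
        have h3 := congrArg (fun f : Fin (l + 2) → V => (Fin.init f : Fin (l + 1) → V)) h
        have h4 := congrArg (fun f : Fin (l + 2) → V => f (Fin.last (l + 1))) h
        simp only [Fin.init_snoc, Fin.snoc_last] at h3 h4
        rw [h3, h4]
    have h5 : (T.card : ℝ) * (D / 2) ≤ ((T.sigma fun P => CL4.good G P).card : ℝ) := by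
      rw [Finset.card_sigma]
      push_cast
      rw [← nsmul_eq_mul]
      apply Finset.card_nsmul_le_sum
      intro P hP
      have h6 := CL4.good_card G P
      have h7 := hD (P (Fin.last l))
      have h8 : ((dg G.A Finset.univ (P (Fin.last l)) : ℕ) : ℝ) ≤ (CL4.good G P).card + b * (2 * l + 1) * s := by
        exact_mod_cast h6
      linarith
    have h9 : ((T.sigma fun P => CL4.good G P).card : ℝ) ≤
        (((Finset.univ : Finset (Fin (l + 1 + 1) → V)).filter fun P => Wk G.A (l + 1) P ∧ G.Cln P).card : ℝ) := by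
      exact_mod_cast h2
    calc (Fintype.card V : ℝ) * (D / 2) ^ (l + 1) = (Fintype.card V : ℝ) * (D / 2) ^ l * (D / 2) := by ring
      _ ≤ (T.card : ℝ) * (D / 2) := by
          apply mul_le_mul_of_nonneg_right ih' (by positivity)
      _ ≤ _ := h5.trans h9

end Pool.Agent.F2
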